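import Pool.Agent.Lib.MP_467d59_al.Final

set_option autoImplicit false

namespace Pool.Agent.Results.MP_467d59_al.UniformSpreadResolution

open Pool.Agent.Lib.MP_467d59_al

universe u v w

/-- For every finite poset `Q` there is a number `N` such that, for every field `k` and every total
order `T`, every finitely presented representation of `T × Q` over `k` has a spread-resolution of
length at most `N`. In particular every finitely presented representation has a finite
spread-resolution, and the spread-global dimension of `T × Q` is finite. -/
theorem result (Q : Type v) [PartialOrder Q] [Finite Q] :
    ∃ N : ℕ, ∀ (k : Type w) [Field k] (T : Type u) [LinearOrder T] (M : PRep k (T × Q)),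
      IsFP M → Nonempty (SpreadResolution M N) :=
  main Q

end Pool.Agent.Results.MP_467d59_al.UniformSpreadResolution
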